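import Pool.Agent.Lib.MP_621c18_co.CheckDefs

namespace Pool.Agent.OM621

theorem chkSupp_ok : chkSupp = true := by decide +kernel

theorem chkOrth_ok : chkOrth = true := by decide +kernel

theorem chkMut_ok : chkMut = true := by decide +kernel

end Pool.Agent.OM621
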