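import Pool.Agent.Lib.MP_621c18_co.CheckDefs

namespace Pool.Agent.OM621

theorem chkPot0 : chkPot 0 = true := by decide +kernel

theorem chkPot1 : chkPot 1 = true := by decide +kernel

theorem chkPot2 : chkPot 2 = true := by decide +kernel

theorem chkPot3 : chkPot 3 = true := by decide +kernel

end Pool.Agent.OM621
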