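import Pool.Agent.Lib.MP_621c18_co.CheckDefs

namespace Pool.Agent.OM621

theorem chkPot4 : chkPot 4 = true := by decide +kernel

theorem chkPot5 : chkPot 5 = true := by decide +kernel

theorem chkPot6 : chkPot 6 = true := by decide +kernel

theorem chkPot7 : chkPot 7 = true := by decide +kernel

theorem chkPot8 : chkPot 8 = true := by decide +kernel

end Pool.Agent.OM621
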