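import Pool.Agent.Lib.MP_621c18_co.CheckDefs

namespace Pool.Agent.OM621

theorem chkPot9 : chkPot 9 = true := by decide +kernel

theorem chkPot10 : chkPot 10 = true := by decide +kernel

theorem chkPot11 : chkPot 11 = true := by decide +kernel

theorem chkPot12 : chkPot 12 = true := by decide +kernel

end Pool.Agent.OM621
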