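import Pool.Agent.Lib.MP_621c18_co.Data

/-! Boolean checks on the tables. -/

namespace Pool.Agent.OM621

noncomputable def allLt (P : ℕ → Bool) (n : ℕ) : Bool := Nat.rec true (fun k ih => P k && ih) n

noncomputable def anyLt (P : ℕ → Bool) (n : ℕ) : Bool := Nat.rec false (fun k ih => P k || ih) n

lemma allLt_spec {P : ℕ → Bool} {n : ℕ} (h : allLt P n = true) : ∀ i, i < n → P i = true := by
  induction n with
  | zero => intro i hi; omega
  | succ n ih =>
    have h' : (P n && allLt P n) = true := h
    rw [Bool.and_eq_true] at h'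
    intro i hi
    by_cases hin : i = n
    · rw [hin]; exact h'.1
    · exact ih h'.2 i (by omega)

lemma anyLt_spec {P : ℕ → Bool} {n : ℕ} (h : anyLt P n = true) : ∃ i, i < n ∧ P i = true := by
  induction n with
  | zero => exact absurd h (by simp [anyLt])
  | succ n ih =>
    have h' : (P n || anyLt P n) = true := h
    rw [Bool.or_eq_true] at h'
    rcases h' with h1 | h1
    · exact ⟨n, by omega, h1⟩
    · obtain ⟨i, hi, hP⟩ := ih h1
      exact ⟨i, by omega, hP⟩

def tb (m i : ℕ) : Bool := Nat.beq (Nat.land 1 (Nat.shiftRight m i)) 1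

lemma tb_eq (m i : ℕ) : tb m i = m.testBit i := by
  unfold tb Nat.testBit
  have h1 : Nat.land 1 (Nat.shiftRight m i) = (m >>> i) % 2 := Nat.one_and_eq_mod_two _
  have h2 : 1 &&& m >>> i = (m >>> i) % 2 := Nat.one_and_eq_mod_two _
  rw [h1, h2]
  rcases Nat.mod_two_eq_zero_or_one (m >>> i) with h | h <;> rw [h] <;> rfl

/-- flip bit `i` -/
def fl (m i : ℕ) : ℕ := Nat.xor m (Nat.shiftLeft 1 i)

lemma fl_testBit (m i j : ℕ) : (fl m i).testBit j = (m.testBit j ^^ decide (i = j)) := by
  have : fl m i = m ^^^ 2 ^ i := by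
    unfold fl
    have : Nat.shiftLeft 1 i = 2 ^ i := Nat.one_shiftLeft i
    rw [this]; rfl
  rw [this, Nat.testBit_xor, Nat.testBit_two_pow]

noncomputable def pcN (m n : ℕ) : ℕ := Nat.rec 0 (fun i acc => cond (tb m i) (Nat.succ acc) acc) n

lemma pcN_eq (m n : ℕ) : pcN m n = ((Finset.range n).filter (fun i => m.testBit i = true)).card := by
  induction n with
  | zero => rfl
  | succ n ih =>
    have h : pcN m (n + 1) = cond (tb m n) (Nat.succ (pcN m n)) (pcN m n) := rfl
    rw [h, ih, tb_eq, Finset.range_add_one, Finset.filter_insert]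
    cases hb : m.testBit n
    · simp
    · simp

noncomputable def chkSupp : Bool :=
  allLt (fun m => !(Nat.beq (pcN m 14) 6) || allLt (fun x =>
    (tb (negT x) m == (tb m x && !(tb (posT x) m))) && (!(tb (posT x) m) || tb m x)) 14) 16384

noncomputable def orF (t : ℕ) (b : Bool) (n : ℕ) : ℕ :=
  Nat.rec 0 (fun x acc => cond (tb t x)
    (Nat.lor acc (cond (tb (cocT x) t == b) (posT x) (negT x))) acc) n

lemma orF_testBit (t : ℕ) (b : Bool) (n m : ℕ) : (orF t b n).testBit m = true ↔
    ∃ x, x < n ∧ t.testBit x = true ∧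
      (cond ((cocT x).testBit t == b) (posT x) (negT x)).testBit m = true := by
  induction n with
  | zero =>
    have : orF t b 0 = 0 := rfl
    simp [this]
  | succ n ih =>
    have h : orF t b (n + 1) = cond (tb t n)
      (orF t b n ||| (cond (tb (cocT n) t == b) (posT n) (negT n))) (orF t b n) := rfl
    rw [h, tb_eq, tb_eq]
    constructor
    · intro h1
      cases hb : t.testBit n
      · rw [hb, cond_false, ih] at h1
        obtain ⟨x, hx, h2⟩ := h1
        exact ⟨x, by omega, h2⟩
      · rw [hb, cond_true, Nat.testBit_or, Bool.or_eq_true, ih] at h1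
        rcases h1 with ⟨x, hx, h2⟩ | h1
        · exact ⟨x, by omega, h2⟩
        · exact ⟨n, by omega, hb, h1⟩
    · rintro ⟨x, hx, h1, h2⟩
      by_cases hxn : x = n
      · subst hxn
        rw [h1, cond_true, Nat.testBit_or, h2, Bool.or_true]
      · have := ih.2 ⟨x, by omega, h1, h2⟩
        cases hb : t.testBit n
        · rw [cond_false]; exact this
        · rw [cond_true, Nat.testBit_or, this, Bool.true_or]

noncomputable def chkOrth : Bool :=
  allLt (fun t => !(Nat.beq (pcN t 14) 10) || Nat.beq (orF t true 14) (orF t false 14)) 16384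

def potF (f m : ℕ) : ℕ :=
  cond (tb m f) (Nat.land 255 (Nat.shiftRight (potT f) (Nat.mul 8 m))) (cstT f)

noncomputable def chkPot (f : ℕ) : Bool :=
  allLt (fun u => !(tb u f) || (!(Nat.beq (pcN u 14) 6) || allLt (fun a => !(tb u a) ||
    allLt (fun b => !(tb u b) || (Nat.beq a b ||
      (((tb (posT a) (fl (fl u b) 13) == tb (posT 13) (fl (fl u b) 13)) !=
        (tb (posT a) u == tb (posT f) u)) ||
      Nat.blt (potF f (fl u a)) (potF f (fl u b))))) 13) 13)) 8192

def dm (t i : ℕ) : SignType := cond (tb t i) (cond (tb (cocT i) t) 1 (-1)) 0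

def nm (t i : ℕ) : SignType := dm t 0 * dm t i

noncomputable def chkSide (t a : ℕ) (s : SignType) : Bool :=
  anyLt (fun h => decide (nm t h ≠ 0) && (decide (nm t h = -(s * dm (fl (fl t 0) a) h)) &&
    allLt (fun e => decide (nm t e * nm (fl (fl t h) a) e ≠ -1)) 13)) 13

noncomputable def chkMut : Bool :=
  allLt (fun t => !(tb t 0) || (!(Nat.beq (pcN t 14) 10) ||
    anyLt (fun a => !(tb t a) && (chkSide t a 1 && chkSide t a (-1))) 13)) 8192

end Pool.Agent.OM621
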