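import Mathlib

/-!
Oriented matroids given by their signed cocircuits, duality, single-element extensions in general
position, Euclidean oriented matroid programs and Mandel oriented matroids.
A signed subset of `E` is a map `E → SignType`.
-/

namespace Pool.Agent.OM621

variable {E : Type}

/-- The support of a signed set. -/
def supp (X : E → SignType) : Set E := {e | X e ≠ 0}

/-- `Z⁺ ⊆ X⁺ ∪ Y⁺` and `Z⁻ ⊆ X⁻ ∪ Y⁻`. -/
def Within (Z X Y : E → SignType) : Prop :=
  ∀ x, (Z x = 1 → X x = 1 ∨ Y x = 1) ∧ (Z x = -1 → X x = -1 ∨ Y x = -1)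

/-- `C` is the set of signed cocircuits of an oriented matroid on `E`: the axioms (C0)-(C3). -/
structure IsOM (C : Set (E → SignType)) : Prop where
  zero : (0 : E → SignType) ∉ C
  neg : ∀ X ∈ C, -X ∈ C
  incomp : ∀ X ∈ C, ∀ Y ∈ C, supp X ⊆ supp Y → X = Y ∨ X = -Y
  elim : ∀ X ∈ C, ∀ Y ∈ C, X ≠ -Y → ∀ e, X e = 1 → Y e = -1 →
    ∃ Z ∈ C, Z e = 0 ∧ Within Z X Y

/-- Orthogonality of signed sets: disjoint supports, or the restrictions to the common support
are neither equal nor opposite. -/
def Orth (X Y : E → SignType) : Prop := (∃ e, X e * Y e = 1) ↔ (∃ e, X e * Y e = -1)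

/-- The nonzero members of `V` with inclusion-minimal support. -/
def minSupp (V : Set (E → SignType)) : Set (E → SignType) :=
  {X | X ∈ V ∧ X ≠ 0 ∧ ∀ Y ∈ V, Y ≠ 0 → supp Y ⊆ supp X → supp Y = supp X}

/-- The cocircuits of the dual oriented matroid, i.e. the circuits of the oriented matroid with
cocircuits `C`: the minimal nonzero signed sets orthogonal to all members of `C`. -/
def dual (C : Set (E → SignType)) : Set (E → SignType) := minSupp {V | ∀ X ∈ C, Orth X V}

/-- The cocircuits of the deletion of the new element `none` from an oriented matroid on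
`Option E` with cocircuits `C'`: the minimal nonzero restrictions to `E`. -/
def deleteNew (C' : Set (Option E → SignType)) : Set (E → SignType) :=
  minSupp {X | ∃ X' ∈ C', ∀ e, X e = X' (some e)}

/-- `e` is a loop: it lies in no cocircuit. -/
def IsLoop (C : Set (E → SignType)) (e : E) : Prop := ∀ X ∈ C, X e = 0

/-- `e` is a coloop: `{e}` is the support of a cocircuit. -/
def IsColoop (C : Set (E → SignType)) (e : E) : Prop := ∃ X ∈ C, supp X = {e}

/-- Comodular pair: the two hyperplanes (zero sets) are distinct and meet in a coline, i.e. the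
union of the supports is minimal among unions of two distinct cocircuit supports. -/
def Comodular (C : Set (E → SignType)) (X Y : E → SignType) : Prop :=
  supp X ≠ supp Y ∧ ∀ X' ∈ C, ∀ Y' ∈ C, supp X' ≠ supp Y' →
    supp X' ∪ supp Y' ⊆ supp X ∪ supp Y → supp X' ∪ supp Y' = supp X ∪ supp Y

/-- `X, Y` is an edge of the graph `G_f` of the program `(C, g, f)` (cocircuits with `g`-entry `+`
that are conformal and comodular), and the cocircuit `Z` obtained by eliminating `g` between `-X`
and `Y` has `f`-entry `s`. For `s = 1` the edge is directed from `X` to `Y`, for `s = 0` it is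
undirected. -/
def Arc (C : Set (E → SignType)) (g f : E) (s : SignType) (X Y : E → SignType) : Prop :=
  X ∈ C ∧ Y ∈ C ∧ X g = 1 ∧ Y g = 1 ∧ (∀ e, X e * Y e ≠ -1) ∧ Comodular C X Y ∧
    ∃ Z ∈ C, Z g = 0 ∧ Within Z (-X) Y ∧ Z f = s

/-- The program `(C, g, f)` is Euclidean: `G_f` has no directed cycle. For `b = true` a directed
cycle has at least one forward edge and all other edges forward or undirected; for `b = false`
all its edges are forward. -/
def Euclidean (b : Bool) (C : Set (E → SignType)) (g f : E) : Prop :=
  ¬ ∃ X Y, Arc C g f 1 X Y ∧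
    Relation.ReflTransGen (fun A B => Arc C g f 1 A B ∨ (b = true ∧ Arc C g f 0 A B)) Y X

/-- Mandel: there is a single-element extension by `g = none` in general position, `g` not a
coloop, all of whose programs `(C', g, f)`, `f` neither a loop nor a coloop, are Euclidean. -/
def Mandel (b : Bool) (C : Set (E → SignType)) : Prop :=
  ∃ C' : Set (Option E → SignType), IsOM C' ∧ deleteNew C' = C ∧
    (∀ X ∈ C, ∃ X' ∈ C', X' none ≠ 0 ∧ ∀ e, X e = X' (some e)) ∧ ¬ IsColoop C' none ∧
    ∀ f, ¬ IsLoop C f → ¬ IsColoop C f → Euclidean b C' none (some f)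

end Pool.Agent.OM621
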