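import Pool.Agent.Lib.MP_621c18_co.Uniform

/-!
Deleting the new element from a uniform oriented matroid on `Option E`, and a potential
criterion for Euclidean programs.
-/

set_option linter.unusedSectionVars false

namespace Pool.Agent.OM621

open Finset

variable {E : Type} [Fintype E] [DecidableEq E]

/-- restrictions of the members that contain the new element -/
def resNe (A' : Set (Option E → SignType)) : Set (E → SignType) :=
  {X | ∃ X' ∈ A', X' none ≠ 0 ∧ ∀ e, X e = X' (some e)}

/-- restrictions of the members that avoid the new element -/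
def resEq (A' : Set (Option E → SignType)) : Set (E → SignType) :=
  {X | ∃ X' ∈ A', X' none = 0 ∧ ∀ e, X e = X' (some e)}

lemma fs_of_ne {X : E → SignType} {X' : Option E → SignType} (h0 : X' none ≠ 0)
    (h : ∀ e, X e = X' (some e)) : fs X' = Finset.insertNone (fs X) := by
  ext x
  cases x with
  | none => simp [h0]
  | some e => simp [h e]

lemma fs_of_eq {X : E → SignType} {X' : Option E → SignType} (h0 : X' none = 0)
    (h : ∀ e, X e = X' (some e)) : fs X' = (fs X).map Function.Embedding.some := by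
  ext x
  cases x with
  | none => simp [h0]
  | some e => simp [h e]

lemma card_of_ne {X : E → SignType} {X' : Option E → SignType} (h0 : X' none ≠ 0)
    (h : ∀ e, X e = X' (some e)) : (fs X').card = (fs X).card + 1 := by
  rw [fs_of_ne h0 h, Finset.card_insertNone]

lemma card_of_eq {X : E → SignType} {X' : Option E → SignType} (h0 : X' none = 0)
    (h : ∀ e, X e = X' (some e)) : (fs X').card = (fs X).card := by
  rw [fs_of_eq h0 h, Finset.card_map]

variable {A' B' : Set (Option E → SignType)} {k m : ℕ}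

lemma UPair.res (h : UPair A' B' (k + 1) m) (hk : 2 ≤ k) : UPair (resNe A') (resEq B') k m := by
  refine ⟨?_, hk, h.mpos, ?_, ?_, ?_, ?_, ?_, ?_, ?_⟩
  · have := h.card; rw [Fintype.card_option] at this; omega
  · rintro X ⟨X', hX', h0, hr⟩
    have h1 := card_of_ne h0 hr
    rw [h.sizeA X' hX'] at h1; omega
  · rintro X ⟨X', hX', h0, hr⟩
    have h1 := card_of_eq h0 hr
    rw [h.sizeB X' hX'] at h1; omega
  · intro S hS
    obtain ⟨X', hX', hs⟩ := h.exA (Finset.insertNone S) (by rw [Finset.card_insertNone, hS])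
    refine ⟨fun e => X' (some e), ⟨X', hX', ?_, fun _ => rfl⟩, ?_⟩
    · rw [← mem_fs, hs]; simp
    · ext e
      rw [mem_fs, ← mem_fs (X := X'), hs]; simp
  · intro S hS
    obtain ⟨X', hX', hs⟩ := h.exB (S.map Function.Embedding.some) (by rw [Finset.card_map, hS])
    refine ⟨fun e => X' (some e), ⟨X', hX', ?_, fun _ => rfl⟩, ?_⟩
    · by_contra hne
      have : none ∈ fs X' := by simpa using hne
      rw [hs] at this; simp at this
    · ext e
      rw [mem_fs, ← mem_fs (X := X'), hs]; simp
  · rintro X ⟨X', hX', h0, hr⟩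
    exact ⟨-X', h.negA X' hX', by simpa using h0, fun e => by simp [hr e]⟩
  · rintro X ⟨X', hX', h0, hr⟩
    exact ⟨-X', h.negB X' hX', by simpa using h0, fun e => by simp [hr e]⟩
  · rintro X ⟨X', hX', _, hr⟩ Y ⟨Y', hY', h0, hs⟩
    have ho := h.orth X' hX' Y' hY'
    have red : ∀ t : SignType, t ≠ 0 → ((∃ e, X e * Y e = t) ↔ ∃ e, X' e * Y' e = t) := by
      intro t ht
      constructor
      · rintro ⟨e, he⟩
        exact ⟨some e, by rw [← hr, ← hs]; exact he⟩
      · rintro ⟨e, he⟩
        cases e with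
        | none => rw [h0] at he; simp at he; exact absurd he.symm ht
        | some e => exact ⟨e, by rw [hr, hs]; exact he⟩
    unfold Orth at *
    rw [red 1 (by decide), red (-1) (by decide)]
    exact ho

lemma UPair.deleteNew_eq (h : UPair A' B' (k + 1) m) (hk : 2 ≤ k) : deleteNew A' = resNe A' := by
  have hr := h.res hk
  have big : ∀ Y : E → SignType, (∃ X' ∈ A', ∀ e, Y e = X' (some e)) → k ≤ (fs Y).card := by
    rintro Y ⟨X', hX', hY⟩
    have hs := h.sizeA X' hX'
    by_cases h0 : X' none = 0
    · have := card_of_eq h0 hY; omega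
    · have := card_of_ne h0 hY; omega
  ext X
  constructor
  · rintro ⟨⟨X', hX', hX⟩, _, hmin⟩
    refine ⟨X', hX', fun h0 => ?_, hX⟩
    have h1 := card_of_eq h0 hX
    rw [h.sizeA X' hX'] at h1
    obtain ⟨S, hS, hSc⟩ := Finset.exists_subset_card_eq (s := fs X) (n := k) (by omega)
    obtain ⟨Y, hY, hYS⟩ := hr.exA S hSc
    have hne := hr.ne_zero hY
    obtain ⟨Y', hY', _, hYr⟩ := hY
    have := supp_eq_iff.1 (hmin Y ⟨Y', hY', hYr⟩ hne (supp_subset_iff.2 (by rw [hYS]; exact hS)))
    rw [← this, hYS] at h1; omega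
  · intro hX
    have hne := hr.ne_zero hX
    have hs := hr.sizeA X hX
    obtain ⟨X', hX', _, hXr⟩ := hX
    refine ⟨⟨X', hX', hXr⟩, hne, fun Y hY _ hsub => ?_⟩
    rw [supp_eq_iff]
    apply Finset.eq_of_subset_of_card_le (supp_subset_iff.1 hsub)
    rw [hs]; exact big Y hY

variable {F : Type} [Fintype F] [DecidableEq F] {A B : Set (F → SignType)}

/-- the shape of an edge in the uniform case -/
lemma UPair.arc_shape (h : UPair A B k m) {g f : F} {s : SignType} {X Y : F → SignType}
    (ha : Arc A g f s X Y) :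
    ∃ Z ∈ A, Z g = 0 ∧ Z f = s ∧ ∃ a b, a ≠ b ∧ a ∈ fs Z ∧ b ∈ fs Z ∧
      fs X = insert g ((fs Z).erase a) ∧ fs Y = insert g ((fs Z).erase b) ∧ Z a = Y a := by
  obtain ⟨hX, hY, hXg, hYg, _, ⟨hne, hmin⟩, Z, hZ, hZg, hW, hZf⟩ := ha
  have sX := h.sizeA X hX
  have sY := h.sizeA Y hY
  have sZ := h.sizeA Z hZ
  have hne' : fs X ≠ fs Y := fun hh => hne (supp_eq_iff.2 hh)
  obtain ⟨a, haY, haX⟩ : ∃ a, a ∈ fs Y ∧ a ∉ fs X := by
    by_contra hc
    push Not at hc
    exact hne' (Finset.eq_of_subset_of_card_le hc (by omega)).symm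
  obtain ⟨b, hbX, hbY⟩ : ∃ b, b ∈ fs X ∧ b ∉ fs Y := by
    by_contra hc
    push Not at hc
    exact hne' (Finset.eq_of_subset_of_card_le hc (by omega))
  have hab : a ≠ b := by rintro rfl; exact haX hbX
  have hk := h.kpos
  obtain ⟨Y2, hY2, hY2s⟩ := h.exA (insert a ((fs X).erase b)) (by
    rw [Finset.card_insert_of_notMem (by simp [haX]), Finset.card_erase_of_mem hbX]; omega)
  have hU : fs X ∪ fs Y2 = fs X ∪ fs Y := by
    have := hmin X hX Y2 hY2 (by
      rw [Ne, supp_eq_iff, hY2s]
      intro hh
      apply haX; rw [hh]; simp) (by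
      rw [← coe_fs, ← coe_fs, ← coe_fs, ← Finset.coe_union, ← Finset.coe_union,
        Finset.coe_subset, hY2s]
      intro x hx
      simp only [Finset.mem_union, Finset.mem_insert, Finset.mem_erase] at hx ⊢
      rcases hx with hx | rfl | hx
      · exact Or.inl hx
      · exact Or.inr haY
      · exact Or.inl hx.2)
    rw [← coe_fs, ← coe_fs, ← coe_fs, ← Finset.coe_union, ← Finset.coe_union,
      Finset.coe_inj] at this
    exact this
  have hU2 : fs X ∪ fs Y = insert a (fs X) := by
    rw [← hU, hY2s]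
    ext x
    simp only [Finset.mem_union, Finset.mem_insert, Finset.mem_erase]
    tauto
  have hgX : g ∈ fs X := by simp [hXg]
  have hgY : g ∈ fs Y := by simp [hYg]
  have hga : g ≠ a := by rintro rfl; exact haX hgX
  have hgb : g ≠ b := by rintro rfl; exact hbY hgY
  have hZsub : fs Z ⊆ (insert a (fs X)).erase g := by
    intro x hx
    rw [Finset.mem_erase, ← hU2]
    refine ⟨?_, ?_⟩
    · rintro rfl; simp [hZg] at hx
    · have h1 := hW x
      simp only [Finset.mem_union, mem_fs, Pi.neg_apply] at hx h1 ⊢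
      revert hx h1
      generalize X x = p; generalize Y x = q; generalize Z x = r; revert p q r; decide
  have hZeq : fs Z = (insert a (fs X)).erase g :=
    Finset.eq_of_subset_of_card_le hZsub (by
      rw [Finset.card_erase_of_mem (by simp [hgX]), Finset.card_insert_of_notMem haX]; omega)
  have haZ : a ∈ fs Z := by rw [hZeq]; simp [hga.symm]
  have hbZ : b ∈ fs Z := by rw [hZeq]; simp only [Finset.mem_erase, Finset.mem_insert]; tauto
  refine ⟨Z, hZ, hZg, hZf, a, b, hab, haZ, hbZ, ?_, ?_, ?_⟩
  · rw [hZeq]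
    ext x
    simp only [Finset.mem_insert, Finset.mem_erase]
    constructor
    · intro hx
      by_cases hxg : x = g
      · exact Or.inl hxg
      · exact Or.inr ⟨by rintro rfl; exact haX hx, hxg, Or.inr hx⟩
    · rintro (rfl | ⟨h1, _, h3 | h3⟩)
      · exact hgX
      · exact absurd h3 h1
      · exact h3
  · apply Finset.eq_of_subset_of_card_le
    · intro x hx
      rw [hZeq]
      simp only [Finset.mem_insert, Finset.mem_erase]
      by_cases hxg : x = g
      · exact Or.inl hxg
      · refine Or.inr ⟨by rintro rfl; exact hbY hx, hxg, ?_⟩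
        have : x ∈ fs X ∪ fs Y := Finset.mem_union_right _ hx
        rw [hU2] at this
        exact Finset.mem_insert.1 this
    · rw [Finset.card_insert_of_notMem (by simp [hZg]), Finset.card_erase_of_mem hbZ]; omega
  · have h1 := hW a
    simp only [mem_fs, Pi.neg_apply, not_not] at haZ haX h1
    rw [haX] at h1
    revert haZ h1
    generalize Y a = q; generalize Z a = r; revert q r; decide

omit [Fintype F] [DecidableEq F] in
lemma euclidean_of_pot {C : Set (F → SignType)} {g f : F} (p : (F → SignType) → ℕ)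
    (h1 : ∀ X Y, Arc C g f 1 X Y → p X < p Y) (h0 : ∀ X Y, Arc C g f 0 X Y → p X ≤ p Y)
    (b : Bool) : Euclidean b C g f := by
  rintro ⟨X, Y, hXY, hr⟩
  have : p Y ≤ p X := by
    clear hXY
    induction hr with
    | refl => exact le_rfl
    | tail _ hs ih =>
      rcases hs with hs | ⟨_, hs⟩
      · exact ih.trans (h1 _ _ hs).le
      · exact ih.trans (h0 _ _ hs)
  have := h1 X Y hXY
  omega

end Pool.Agent.OM621
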