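import Pool.Agent.Lib.MP_621c18_co.NonMandel
import Pool.Agent.Lib.MP_621c18_co.Check1
import Pool.Agent.Lib.MP_621c18_co.Check2
import Pool.Agent.Lib.MP_621c18_co.Check3
import Pool.Agent.Lib.MP_621c18_co.Check4

/-! The example. -/

namespace Pool.Agent.OM621

open Finset

abbrev F14 := Option (Fin 13)

def idx : F14 → ℕ
  | none => 13
  | some i => i.val

def un (i : ℕ) : F14 := if h : i < 13 then some ⟨i, h⟩ else none

lemma idx_lt (x : F14) : idx x < 14 := by
  cases x with
  | none => simp [idx]
  | some i => have := i.2; simp only [idx]; omega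

lemma un_idx (x : F14) : un (idx x) = x := by
  cases x with
  | none => simp [idx, un]
  | some i => simp [idx, un]

lemma idx_un {i : ℕ} (h : i < 14) : idx (un i) = i := by
  unfold un
  split_ifs with h1
  · rfl
  · simp only [idx]; omega

lemma idx_inj {x y : F14} (h : idx x = idx y) : x = y := by
  rw [← un_idx x, h, un_idx]

def code (S : Finset F14) : ℕ := Nat.ofBits (fun i : Fin 14 => decide (un i ∈ S))

lemma code_lt (S : Finset F14) : code S < 16384 := Nat.ofBits_lt_two_pow _

lemma code_testBit (S : Finset F14) (i : ℕ) :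
    (code S).testBit i = (decide (i < 14) && decide (un i ∈ S)) := by
  unfold code
  rw [Nat.testBit_ofBits]
  split_ifs with h <;> simp [h]

lemma code_idx (S : Finset F14) (x : F14) : (code S).testBit (idx x) = decide (x ∈ S) := by
  rw [code_testBit, un_idx]; simp [idx_lt]

lemma pc_code (S : Finset F14) : pcN (code S) 14 = S.card := by
  rw [pcN_eq]
  symm
  apply Finset.card_bij (fun x _ => idx x)
  · intro x hx
    simp [idx_lt, code_idx, hx]
  · intro x _ y _ h
    exact idx_inj h
  · intro i hi
    simp only [Finset.mem_filter, Finset.mem_range, code_testBit, Bool.and_eq_true,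
      decide_eq_true_eq] at hi
    exact ⟨un i, hi.2.2, idx_un hi.1⟩

lemma code_lt' {S : Finset F14} (h : none ∉ S) : code S < 8192 := by
  have h1 := code_lt S
  have h2 := code_idx S none
  simp only [idx, h, decide_false, Nat.testBit_eq_decide_div_mod_eq, decide_eq_false_iff_not] at h2
  omega

lemma code_erase {S : Finset F14} {x : F14} (h : x ∈ S) :
    code (S.erase x) = fl (code S) (idx x) := by
  apply Nat.eq_of_testBit_eq
  intro i
  rw [fl_testBit, code_testBit, code_testBit]
  by_cases hi : idx x = i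
  · subst hi
    simp [un_idx, idx_lt, h]
  · by_cases h14 : i < 14
    · have : un i ≠ x := by
        intro hh; apply hi; rw [← hh, idx_un h14]
      simp [hi, this]
    · simp [hi, h14]

lemma code_insert {S : Finset F14} {x : F14} (h : x ∉ S) :
    code (insert x S) = fl (code S) (idx x) := by
  apply Nat.eq_of_testBit_eq
  intro i
  rw [fl_testBit, code_testBit, code_testBit]
  by_cases hi : idx x = i
  · subst hi
    simp [un_idx, idx_lt, h]
  · by_cases h14 : i < 14
    · have : un i ≠ x := by
        intro hh; apply hi; rw [← hh, idx_un h14]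
      simp [hi, this]
    · simp [hi, h14]

def sg (b : Bool) : SignType := cond b 1 (-1)

def cv (S : Finset F14) (x : F14) : SignType :=
  if x ∈ S then sg ((posT (idx x)).testBit (code S)) else 0

def dv (S : Finset F14) (x : F14) : SignType :=
  if x ∈ S then sg ((cocT (idx x)).testBit (code S)) else 0

lemma sg_ne (b : Bool) : sg b ≠ 0 := by cases b <;> decide

lemma fs_cv (S : Finset F14) : fs (cv S) = S := by
  ext x; by_cases h : x ∈ S <;> simp [cv, h, sg_ne]

lemma fs_dv (S : Finset F14) : fs (dv S) = S := by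
  ext x; by_cases h : x ∈ S <;> simp [dv, h, sg_ne]

def setA : Set (F14 → SignType) := {X | ∃ S : Finset F14, S.card = 6 ∧ (X = cv S ∨ X = -cv S)}

def setB : Set (F14 → SignType) := {X | ∃ S : Finset F14, S.card = 10 ∧ (X = dv S ∨ X = -dv S)}

lemma orth_neg_left {F : Type} {X Y : F → SignType} (h : Orth X Y) : Orth (-X) Y := by
  unfold Orth at *
  have e1 : ∀ e, ((-X) e * Y e = 1) ↔ (X e * Y e = -1) := by
    intro e; simp only [Pi.neg_apply]
    generalize X e = p; generalize Y e = q; revert p q; decide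
  have e2 : ∀ e, ((-X) e * Y e = -1) ↔ (X e * Y e = 1) := by
    intro e; simp only [Pi.neg_apply]
    generalize X e = p; generalize Y e = q; revert p q; decide
  simp only [e1, e2]
  exact h.symm

lemma orth_cv_dv {S T : Finset F14} (hS : S.card = 6) (hT : T.card = 10) :
    Orth (cv S) (dv T) := by
  have h1 := allLt_spec chkSupp_ok (code S) (code_lt S)
  have h2 := allLt_spec chkOrth_ok (code T) (code_lt T)
  rw [pc_code, hS] at h1
  rw [pc_code, hT] at h2
  have h1' := allLt_spec (P := fun x =>
    (tb (negT x) (code S) == (tb (code S) x && !(tb (posT x) (code S)))) &&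
      (!(tb (posT x) (code S)) || tb (code S) x)) (n := 14) h1
  have h2' : orF (code T) true 14 = orF (code T) false 14 := Nat.eq_of_beq_eq_true h2
  have key : ∀ b : Bool, (orF (code T) b 14).testBit (code S) = true ↔
      ∃ x, cv S x * dv T x = sg b := by
    intro b
    rw [orF_testBit]
    have loc : ∀ x : F14, ((code T).testBit (idx x) = true ∧
        (cond ((cocT (idx x)).testBit (code T) == b) (posT (idx x)) (negT (idx x))).testBit
          (code S) = true) ↔ cv S x * dv T x = sg b := by
      intro x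
      have h3 := h1' (idx x) (idx_lt x)
      simp only [tb_eq, code_idx] at h3
      rw [code_idx]
      unfold cv dv
      have hc : (cond ((cocT (idx x)).testBit (code T) == b) (posT (idx x))
          (negT (idx x))).testBit (code S) = cond ((cocT (idx x)).testBit (code T) == b)
          ((posT (idx x)).testBit (code S)) ((negT (idx x)).testBit (code S)) := by
        cases ((cocT (idx x)).testBit (code T) == b) <;> rfl
      rw [hc]
      clear hc
      revert h3
      generalize (cocT (idx x)).testBit (code T) = q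
      generalize (posT (idx x)).testBit (code S) = p
      generalize (negT (idx x)).testBit (code S) = n
      by_cases hxS : x ∈ S <;> by_cases hxT : x ∈ T <;> simp only [hxS, hxT] <;>
        revert p q n b <;> decide
    constructor
    · rintro ⟨i, hi, h3⟩
      refine ⟨un i, (loc (un i)).1 ?_⟩
      rw [idx_un hi]; exact h3
    · rintro ⟨x, hx⟩
      exact ⟨idx x, idx_lt x, (loc x).2 hx⟩
  have k1 := key true
  have k2 := key false
  rw [h2'] at k1
  exact k1.symm.trans k2

theorem upairL : UPair setA setB (5 + 1) 10 := by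
  refine ⟨by simp, by omega, by omega, ?_, ?_, ?_, ?_, ?_, ?_, ?_⟩
  · rintro X ⟨S, hS, rfl | rfl⟩ <;> simp [fs_cv, hS]
  · rintro X ⟨S, hS, rfl | rfl⟩ <;> simp [fs_dv, hS]
  · intro S hS; exact ⟨cv S, ⟨S, hS, Or.inl rfl⟩, fs_cv S⟩
  · intro S hS; exact ⟨dv S, ⟨S, hS, Or.inl rfl⟩, fs_dv S⟩
  · rintro X ⟨S, hS, rfl | rfl⟩
    · exact ⟨S, hS, Or.inr rfl⟩
    · exact ⟨S, hS, Or.inl (neg_neg _)⟩
  · rintro X ⟨S, hS, rfl | rfl⟩
    · exact ⟨S, hS, Or.inr rfl⟩
    · exact ⟨S, hS, Or.inl (neg_neg _)⟩
  · rintro X ⟨S, hS, hX⟩ Y ⟨T, hT, hY⟩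
    have h := orth_cv_dv hS hT
    have h2 : Orth X (dv T) := by
      rcases hX with rfl | rfl
      · exact h
      · exact orth_neg_left h
    rcases hY with rfl | rfl
    · exact h2
    · exact orth_symm (orth_neg_left (orth_symm h2))

lemma chkPot_all (f : Fin 13) : chkPot f = true := by
  fin_cases f
  exacts [chkPot0, chkPot1, chkPot2, chkPot3, chkPot4, chkPot5, chkPot6, chkPot7, chkPot8,
    chkPot9, chkPot10, chkPot11, chkPot12]

lemma setA_eq {X : F14 → SignType} (hX : X ∈ setA) :
    ∃ s : SignType, s ≠ 0 ∧ ∀ x, X x = s * cv (fs X) x := by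
  obtain ⟨S, _, rfl | rfl⟩ := hX
  · exact ⟨1, by decide, fun x => by simp [fs_cv]⟩
  · exact ⟨-1, by decide, fun x => by simp [fs_cv]⟩

theorem euclid (b : Bool) (f : Fin 13) : Euclidean b setA none (some f) := by
  apply euclidean_of_pot (fun X => potF f (code ((fs X).erase none)))
  · intro X Y ha
    have hY : Y ∈ setA := ha.2.1
    have hYg : Y none = 1 := ha.2.2.2.1
    obtain ⟨Z, hZ, hZg, hZf, a, c, hac, haZ, hcZ, hX', hY', hZa⟩ := upairL.arc_shape ha
    have hgZ : none ∉ fs Z := by simp [hZg]
    have hfZ : some f ∈ fs Z := by simp [hZf]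
    have ha13 : idx a < 13 := by
      cases a with
      | none => exact absurd haZ hgZ
      | some i => exact i.2
    have hc13 : idx c < 13 := by
      cases c with
      | none => exact absurd hcZ hgZ
      | some i => exact i.2
    have hcode : code (fs Y) = fl (fl (code (fs Z)) (idx c)) 13 := by
      rw [hY', code_insert (by simp [hZg]), code_erase hcZ]; rfl
    have h1 := allLt_spec (chkPot_all f) (code (fs Z)) (code_lt' hgZ)
    have hf' : tb (code (fs Z)) f = true := by
      rw [tb_eq]; exact (code_idx (fs Z) (some f)).trans (by simpa using hfZ)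
    have ha' : tb (code (fs Z)) (idx a) = true := by
      rw [tb_eq, code_idx]; simpa using haZ
    have hc' : tb (code (fs Z)) (idx c) = true := by
      rw [tb_eq, code_idx]; simpa using hcZ
    rw [hf', pc_code, upairL.sizeA Z hZ, show Nat.beq (5 + 1) 6 = true from rfl] at h1
    simp only [Bool.not_true, Bool.false_or] at h1
    have h2 := allLt_spec (n := 13) h1 (idx a) ha13
    simp only [ha', Bool.not_true, Bool.false_or] at h2
    have h3 := allLt_spec (n := 13) h2 (idx c) hc13
    have hne : Nat.beq (idx a) (idx c) = false := by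
      cases hb : Nat.beq (idx a) (idx c)
      · rfl
      · exact absurd (idx_inj (Nat.eq_of_beq_eq_true hb)) hac
    simp only [hc', hne, Bool.not_true, Bool.false_or, ← hcode] at h3
    obtain ⟨s, hs, hYs⟩ := setA_eq hY
    obtain ⟨t, ht, hZs⟩ := setA_eq hZ
    have e1 := hYs a
    have e2 := hYs none
    have e3 := hZs a
    have e4 := hZs (some f)
    have haY : a ∈ fs Y := by rw [mem_fs, ← hZa]; simpa using haZ
    have hgY : none ∈ fs Y := by simp [hYg]
    rw [cv, if_pos haY, ← hZa] at e1
    rw [cv, if_pos hgY, hYg] at e2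
    rw [cv, if_pos haZ] at e3
    rw [cv, if_pos hfZ, hZf] at e4
    have hcond : ((tb (posT (idx a)) (code (fs Y)) == tb (posT 13) (code (fs Y))) !=
        (tb (posT (idx a)) (code (fs Z)) == tb (posT f) (code (fs Z)))) = false := by
      simp only [tb_eq]
      change 1 = s * sg ((posT 13).testBit (code (fs Y))) at e2
      change 1 = t * sg ((posT f).testBit (code (fs Z))) at e4
      rw [e3] at e1
      revert e1 e2 e4
      generalize (posT (idx a)).testBit (code (fs Y)) = p1
      generalize (posT 13).testBit (code (fs Y)) = p2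
      generalize (posT (idx a)).testBit (code (fs Z)) = p3
      generalize (posT f).testBit (code (fs Z)) = p4
      clear hYs hZs hs ht e3
      revert s t p1 p2 p3 p4; decide
    rw [hcond, Bool.false_or, Nat.blt_eq] at h3
    simp only [hX', hY']
    rw [Finset.erase_insert (by simp [hZg]), Finset.erase_insert (by simp [hZg]),
      code_erase haZ, code_erase hcZ]
    exact h3
  · intro X Y ha
    obtain ⟨Z, hZ, hZg, hZf, a, c, hac, haZ, hcZ, hX', hY', hZa⟩ := upairL.arc_shape ha
    have e : ∀ S : Finset F14, some f ∉ S → potF f (code S) = cstT f := by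
      intro S hS
      have : tb (code S) f = false := by
        rw [tb_eq]; exact (code_idx S (some f)).trans (by simpa using hS)
      rw [potF, this, cond_false]
    simp only [hX', hY']
    rw [e _ (by simp [hZf]), e _ (by simp [hZf])]

theorem mandelN (b : Bool) : Mandel b (resNe setA) := by
  refine ⟨setA, upairL.isOM, upairL.deleteNew_eq (by omega), fun X hX => hX, ?_,
    fun f _ _ => euclid b f⟩
  rintro ⟨X, hX, hs⟩
  have h1 := upairL.sizeA X hX
  have : fs X = {none} := by rw [← Finset.coe_inj, coe_fs, hs]; simp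
  rw [this] at h1; simp at h1

lemma dv_eq_dm (T : Finset F14) (x : F14) : dv T x = dm (code T) (idx x) := by
  unfold dv dm
  rw [tb_eq, tb_eq, code_idx]
  by_cases h : x ∈ T <;> simp [h, sg]

lemma mem_D {T : Finset F14} (hT : T.card = 10) (hg : none ∉ T) (s : SignType) (hs : s ≠ 0) :
    (fun e : Fin 13 => s * dv T (some e)) ∈ resEq setB := by
  by_cases h1 : s = 1
  · exact ⟨dv T, ⟨T, hT, Or.inl rfl⟩, by simp [dv, hg], fun e => by simp [h1]⟩
  · have h2 : s = -1 := by revert hs h1; generalize s = p; revert p; decide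
    exact ⟨-dv T, ⟨T, hT, Or.inr rfl⟩, by simp [dv, hg], fun e => by simp [h2]⟩

lemma mem_fs_dv {T : Finset F14} {s : SignType} (hs : s ≠ 0) (e : Fin 13) :
    e ∈ fs (fun e : Fin 13 => s * dv T (some e)) ↔ some e ∈ T := by
  rw [mem_fs, mul_ne_zero_iff, ← mem_fs (X := dv T), fs_dv]
  simp [hs]

theorem noMut : NoMut (resEq setB) 10 (0 : Fin 13) := by
  have hD := (upairL.res (by omega)).symm
  intro X hX hX0
  have hXc := hD.sizeA X hX
  obtain ⟨T, hT, hg, h0, hXe⟩ : ∃ T : Finset F14, T.card = 10 ∧ none ∉ T ∧ some 0 ∈ T ∧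
      ∀ e, X e = dv T (some 0) * dv T (some e) := by
    obtain ⟨X', ⟨T, hT, hX'⟩, hn, hr⟩ := hX
    have hsq : ∀ p : SignType, p = 1 ∨ -p = 1 → p ≠ 0 := by decide
    rcases hX' with rfl | rfl
    · refine ⟨T, hT, by rw [← fs_dv T]; simp [hn], by rw [← fs_dv T]; simp [← hr, hX0], ?_⟩
      intro e
      rw [← hr 0, hX0, hr e]; simp
    · have hn' : dv T none = 0 := by simpa using hn
      have h1 : dv T (some 0) = -1 := by
        have := hr 0
        rw [hX0, Pi.neg_apply] at this
        revert this; generalize dv T (some 0) = p; revert p; decide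
      refine ⟨T, hT, by rw [← fs_dv T]; simp [hn'], by rw [← fs_dv T]; simp [h1], ?_⟩
      intro e
      rw [h1, hr e]; simp
  have hT0 : dv T (some 0) ≠ 0 := by rw [← mem_fs, fs_dv]; exact h0
  have hXT : ∀ e, e ∈ fs X ↔ some e ∈ T := by
    intro e
    rw [← mem_fs_dv hT0 e, mem_fs, mem_fs, hXe]
  have hXn : ∀ e : Fin 13, X e = nm (code T) e := by
    intro e
    rw [hXe, dv_eq_dm, dv_eq_dm]; rfl
  have h1 := allLt_spec chkMut_ok (code T) (code_lt' hg)
  have h0' : tb (code T) 0 = true := by
    rw [tb_eq]; exact (code_idx T (some 0)).trans (by simpa using h0)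
  rw [h0', pc_code, hT, show Nat.beq 10 10 = true from rfl] at h1
  simp only [Bool.not_true, Bool.false_or] at h1
  obtain ⟨a, ha, h2⟩ := anyLt_spec (n := 13) h1
  simp only [Bool.and_eq_true, Bool.not_eq_true'] at h2
  obtain ⟨haT, hp, hm⟩ := h2
  have haT' : some (⟨a, ha⟩ : Fin 13) ∉ T := by
    have := code_idx T (some ⟨a, ha⟩)
    rw [tb_eq] at haT
    change (code T).testBit a = _ at this
    rw [haT] at this
    simpa using this
  have swap : ∀ h : Fin 13, some h ∈ T →
      (insert (some (⟨a, ha⟩ : Fin 13)) (T.erase (some h))).card = 10 ∧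
      none ∉ insert (some (⟨a, ha⟩ : Fin 13)) (T.erase (some h)) ∧
      code (insert (some (⟨a, ha⟩ : Fin 13)) (T.erase (some h))) = fl (fl (code T) h) a := by
    intro h hh
    refine ⟨?_, by simp [hg], ?_⟩
    · rw [Finset.card_insert_of_notMem (by simp [haT']), Finset.card_erase_of_mem hh, hT]
    · rw [code_insert (by simp [haT']), code_erase hh]; rfl
  obtain ⟨w1, w2, w3⟩ := swap 0 h0
  have ha0 : (⟨a, ha⟩ : Fin 13) ≠ 0 := by rintro hh; rw [hh] at haT'; exact haT' h0
  have hU : fs X ∪ fs (fun e : Fin 13 => (1 : SignType) *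
      dv (insert (some (⟨a, ha⟩ : Fin 13)) (T.erase (some 0))) (some e)) =
      insert (⟨a, ha⟩ : Fin 13) (fs X) := by
    ext e
    rw [Finset.mem_union, mem_fs_dv (by decide), Finset.mem_insert, Finset.mem_insert, hXT]
    simp only [Option.some.injEq, Finset.mem_erase]
    tauto
  refine ⟨_, mem_D w1 w2 1 (by decide), ?_, ?_, ?_⟩
  · simp [dv, ha0.symm]
  · rw [hU, Finset.card_insert_of_notMem (by rw [hXT]; exact haT'), hXc]
  · intro t ht
    have hside : chkSide (code T) a t = true := by
      by_cases h3 : t = 1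
      · rw [h3]; exact hp
      · have h4 : t = -1 := by revert ht h3; generalize t = p; revert p; decide
        rw [h4]; exact hm
    obtain ⟨h, hh, h3⟩ := anyLt_spec hside
    simp only [Bool.and_eq_true, decide_eq_true_eq] at h3
    obtain ⟨c1, c2, c3⟩ := h3
    have hXh : X ⟨h, hh⟩ ≠ 0 := by rw [hXn]; exact c1
    have hhT : some (⟨h, hh⟩ : Fin 13) ∈ T := by rw [← hXT]; simpa using hXh
    obtain ⟨y1, y2, y3⟩ := swap ⟨h, hh⟩ hhT
    have hXh2 : X ⟨h, hh⟩ = -(t * (1 *
        dv (insert (some (⟨a, ha⟩ : Fin 13)) (T.erase (some 0))) (some ⟨h, hh⟩))) := by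
      rw [hXn, dv_eq_dm, w3, one_mul]; exact c2
    have hh0 : (⟨h, hh⟩ : Fin 13) ≠ 0 := by
      intro h5
      rw [h5] at hXh2 hXh
      apply hXh
      rw [hXh2]; simp [dv, ha0.symm]
    have hy0 : dv (insert (some (⟨a, ha⟩ : Fin 13)) (T.erase (some ⟨h, hh⟩))) (some 0) ≠ 0 := by
      rw [← mem_fs, fs_dv]; simp [hh0.symm, h0]
    have hah : (⟨h, hh⟩ : Fin 13) ≠ ⟨a, ha⟩ := by
      intro h5; rw [h5] at hhT; exact haT' hhT
    refine ⟨⟨h, hh⟩, _, mem_D y1 y2 _ hy0, hXh, hXh2, ?_, ?_, ?_, ?_⟩
    · have : dv (insert (some (⟨a, ha⟩ : Fin 13)) (T.erase (some ⟨h, hh⟩))) (some ⟨h, hh⟩) = 0 := by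
        unfold dv
        rw [if_neg]
        simp only [Finset.mem_insert, Option.some.injEq, Finset.mem_erase, ne_eq,
          not_true_eq_false, false_and, or_false]
        exact hah
      simp only [this, mul_zero]
    · intro e he
      rw [mem_fs_dv hy0] at he
      rw [hU, Finset.mem_insert, hXT]
      simp only [Finset.mem_insert, Option.some.injEq, Finset.mem_erase] at he
      tauto
    · revert hy0
      generalize dv (insert (some (⟨a, ha⟩ : Fin 13)) (T.erase (some ⟨h, hh⟩))) (some 0) = p
      revert p; decide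
    · intro e
      have := allLt_spec c3 e e.2
      simp only [decide_eq_true_eq] at this
      rw [hXn, dv_eq_dm, dv_eq_dm, y3]
      exact this

theorem main : IsOM (resNe setA) ∧ IsOM (dual (resNe setA)) ∧
    ∀ b : Bool, Mandel b (resNe setA) ∧ ¬ Mandel b (dual (resNe setA)) := by
  have hN := upairL.res (by omega)
  rw [hN.dual_eq]
  refine ⟨hN.isOM, hN.symm.isOM, fun b => ⟨mandelN b, ?_⟩⟩
  apply not_mandel hN.symm.isOM hN.sizeB (by omega) noMut
  obtain ⟨X, hX, hX0, _⟩ := hN.symm.exists_through ({(0 : Fin 13)}ᶜ) 0 (by simp)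
    (by simp [Finset.card_compl]) 1 (by decide)
  exact ⟨X, hX, by rw [hX0]; decide⟩

end Pool.Agent.OM621
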