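import Pool.Agent.Lib.MP_621c18_co.Ext

/-!
A certificate that an element is adjacent to no mutation forces a directed cycle in every
extension in general position.
-/

set_option linter.unusedSectionVars false

namespace Pool.Agent.OM621

open Finset

variable {E : Type} [Fintype E] [DecidableEq E]

/-- local certificate: at every vertex off the hyperplane `f` there is a line on which the vertex
has a neighbour on the same side of `f` in both directions -/
def NoMut (D : Set (E → SignType)) (m : ℕ) (f : E) : Prop :=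
  ∀ X ∈ D, X f = 1 → ∃ W ∈ D, W f = 0 ∧ (fs X ∪ fs W).card = m + 1 ∧
    ∀ t : SignType, t ≠ 0 → ∃ h, ∃ Y ∈ D, X h ≠ 0 ∧ X h = -(t * W h) ∧ Y h = 0 ∧
      fs Y ⊆ fs X ∪ fs W ∧ Y f = 1 ∧ ∀ e, X e * Y e ≠ -1

lemma exists_cycle {α : Type} [Finite α] (r : α → α → Prop) (V : Set α) (hne : V.Nonempty)
    (h : ∀ x ∈ V, ∃ y ∈ V, r x y) : ∃ x y, r x y ∧ Relation.ReflTransGen r y x := by
  by_contra hc
  push Not at hc
  have hirr : ∀ x, ¬ Relation.TransGen r x x := by
    intro x hx
    obtain ⟨y, hxy, hyx⟩ := Relation.TransGen.head'_iff.1 hx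
    exact hc x y hxy hyx
  have : Std.Irrefl (fun a b => Relation.TransGen r b a) := ⟨hirr⟩
  have : IsTrans α (fun a b => Relation.TransGen r b a) := ⟨fun _ _ _ h1 h2 => h2.trans h1⟩
  have wf : WellFounded (fun a b => Relation.TransGen r b a) :=
    Finite.wellFounded_of_trans_of_irrefl _
  obtain ⟨x, hx, hmin⟩ := wf.has_min V hne
  obtain ⟨y, hy, hxy⟩ := h x hx
  exact hmin y hy (Relation.TransGen.single hxy)

lemma within_supp {F : Type} [Fintype F] {Z X Y : F → SignType} (h : Within Z X Y) {x : F}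
    (hx : Z x ≠ 0) : Z x = X x ∨ Z x = Y x := by
  have h1 := h x
  revert h1 hx
  generalize X x = p; generalize Y x = q; generalize Z x = r; revert p q r; decide

/-- restriction to the old ground set -/
def rs (X' : Option E → SignType) : E → SignType := fun e => X' (some e)

@[simp] lemma rs_apply (X' : Option E → SignType) (e : E) : rs X' e = X' (some e) := rfl

section
variable {D : Set (E → SignType)} {C' : Set (Option E → SignType)} {m : ℕ}

lemma exists_min_below (V : Set (E → SignType)) :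
    ∀ n, ∀ X ∈ V, X ≠ 0 → (fs X).card = n → ∃ Y ∈ minSupp V, fs Y ⊆ fs X := by
  intro n
  induction n using Nat.strong_induction_on with
  | _ n ih =>
    intro X hX h0 hn
    by_cases hmin : ∀ Y ∈ V, Y ≠ 0 → supp Y ⊆ supp X → supp Y = supp X
    · exact ⟨X, ⟨hX, h0, hmin⟩, Finset.Subset.refl _⟩
    · push Not at hmin
      obtain ⟨Y, hY, hY0, hsub, hne⟩ := hmin
      have hsub' := supp_subset_iff.1 hsub
      have hlt : (fs Y).card < n := by
        rw [← hn]
        exact Finset.card_lt_card (Finset.ssubset_iff_subset_ne.2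
          ⟨hsub', fun hh => hne (supp_eq_iff.2 hh)⟩)
      obtain ⟨Z, hZ, hZs⟩ := ih _ hlt Y hY hY0 rfl
      exact ⟨Z, hZ, hZs.trans hsub'⟩

lemma key_size (hC : IsOM C') (hdel : deleteNew C' = D)
    (hgp : ∀ X ∈ D, ∃ X' ∈ C', X' none ≠ 0 ∧ ∀ e, X e = X' (some e))
    (hcl : ¬ IsColoop C' none) (hsz : ∀ X ∈ D, (fs X).card = m) {Z : Option E → SignType}
    (hZ : Z ∈ C') : m ≤ (fs (rs Z)).card ∧ ((fs (rs Z)).card ≤ m → rs Z ∈ D ∧ Z none ≠ 0) := by
  have h0 : rs Z ≠ 0 := by
    intro hh
    have hz : ∀ e, Z (some e) = 0 := fun e => congrFun hh e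
    by_cases hn : Z none = 0
    · apply hC.zero
      have : Z = 0 := by
        funext x
        cases x with
        | none => exact hn
        | some e => exact hz e
      rw [← this]; exact hZ
    · apply hcl
      refine ⟨Z, hZ, ?_⟩
      ext x
      cases x with
      | none => simp [supp, hn]
      | some e => simp [supp, hz e]
  obtain ⟨Y, hY, hYs⟩ := exists_min_below {X | ∃ X' ∈ C', ∀ e, X e = X' (some e)} _ (rs Z)
    ⟨Z, hZ, fun _ => rfl⟩ h0 rfl
  have hYD : Y ∈ D := by rw [← hdel]; exact hY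
  have hYc := hsz Y hYD
  have hle := Finset.card_le_card hYs
  refine ⟨by omega, fun hsm => ?_⟩
  have heq : fs Y = fs (rs Z) := Finset.eq_of_subset_of_card_le hYs (by omega)
  have hZD : rs Z ∈ D := by
    rw [← hdel]
    refine ⟨⟨Z, hZ, fun _ => rfl⟩, h0, fun W hW hW0 hsub => ?_⟩
    have h1 : supp Y = supp (rs Z) := supp_eq_iff.2 heq
    rw [← h1] at hsub ⊢
    exact hY.2.2 W hW hW0 hsub
  refine ⟨hZD, fun hn => ?_⟩
  obtain ⟨X', hX', hXn, hXr⟩ := hgp _ hZD
  have hsub : supp Z ⊆ supp X' := by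
    intro x hx
    cases x with
    | none => exact hXn
    | some e =>
      have := hXr e
      simp only [rs_apply] at this
      simp only [supp, Set.mem_ofPred_eq] at hx ⊢
      rw [← this]; exact hx
  rcases hC.incomp Z hZ X' hX' hsub with h1 | h1
  · rw [h1] at hn; exact hXn hn
  · rw [h1] at hn; exact hXn (by simpa using hn)

lemma big_supp (hC : IsOM C') (hdel : deleteNew C' = D)
    (hgp : ∀ X ∈ D, ∃ X' ∈ C', X' none ≠ 0 ∧ ∀ e, X e = X' (some e))
    (hcl : ¬ IsColoop C' none) (hsz : ∀ X ∈ D, (fs X).card = m) {Z : Option E → SignType}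
    (hZ : Z ∈ C') : m + 1 ≤ (fs Z).card := by
  obtain ⟨h1, h2⟩ := key_size hC hdel hgp hcl hsz hZ
  by_cases hn : Z none = 0
  · have := card_of_eq (X := rs Z) hn (fun _ => rfl)
    by_contra hlt
    exact (h2 (by omega)).2 hn
  · have := card_of_ne (X := rs Z) hn (fun _ => rfl)
    omega

lemma elim' {F : Type} {C : Set (F → SignType)} (hC : IsOM C) {X Y : F → SignType} (hX : X ∈ C)
    (hY : Y ∈ C) (hne : X ≠ -Y) {e : F} (h0 : X e ≠ 0) (he : X e = -Y e) :
    ∃ Z ∈ C, Z e = 0 ∧ Within Z X Y := by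
  by_cases h1 : X e = 1
  · exact hC.elim X hX Y hY hne e h1 (by
      rw [h1] at he; revert he; generalize Y e = q; revert q; decide)
  · obtain ⟨Z, hZ, hZe, hW⟩ := hC.elim Y hY X hX (by
      intro hh; apply hne; rw [hh]; simp) e
      (by revert he h0 h1; generalize Y e = q; generalize X e = p; revert p q; decide)
      (by revert h0 h1; generalize X e = p; revert p; decide)
    exact ⟨Z, hZ, hZe, fun x => ⟨fun hx => ((hW x).1 hx).symm, fun hx => ((hW x).2 hx).symm⟩⟩

/-- the local step -/
lemma step (hD : IsOM D) (hC : IsOM C') (hdel : deleteNew C' = D)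
    (hgp : ∀ X ∈ D, ∃ X' ∈ C', X' none ≠ 0 ∧ ∀ e, X e = X' (some e))
    (hcl : ¬ IsColoop C' none) (hsz : ∀ X ∈ D, (fs X).card = m) {f : E} (hN : NoMut D m f)
    (s : SignType) (hs : s ≠ 0) {X' : Option E → SignType} (hX' : X' ∈ C') (hXD : rs X' ∈ D)
    (hXg : X' none = 1) (hXf : X' (some f) = s) :
    ∃ Y' ∈ C', rs Y' ∈ D ∧ Y' none = 1 ∧ Y' (some f) = s ∧ (∀ e, X' e * Y' e ≠ -1) ∧
      Comodular C' X' Y' ∧ ∃ Z ∈ C', Z none = 0 ∧ Within Z X' (-Y') ∧ Z (some f) = s := by
  -- normalise
  obtain ⟨X, hX, hXf1, hXs⟩ : ∃ X ∈ D, X f = 1 ∧ ∀ e, X' (some e) = s * X e := by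
    by_cases h1 : s = 1
    · exact ⟨rs X', hXD, by rw [rs_apply, hXf, h1], fun e => by simp [h1]⟩
    · have h2 : s = -1 := by revert hs h1; generalize s = p; revert p; decide
      exact ⟨-rs X', hD.neg _ hXD, by simp [hXf, h2], fun e => by simp [h2]⟩
  obtain ⟨W, hW, hWf, hcard, hcert⟩ := hN X hX hXf1
  obtain ⟨W', hW', hWg, t, ht, hWs⟩ : ∃ W' ∈ C', W' none = 1 ∧ ∃ t : SignType, t ≠ 0 ∧
      ∀ e, W' (some e) = t * W e := by
    obtain ⟨W0, hW0, hn, hr⟩ := hgp W hW
    by_cases h1 : W0 none = 1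
    · exact ⟨W0, hW0, h1, 1, by decide, fun e => by simp [hr e]⟩
    · refine ⟨-W0, hC.neg _ hW0, ?_, -1, by decide, fun e => by simp [hr e]⟩
      simp only [Pi.neg_apply]
      revert hn h1; generalize W0 none = p; revert p; decide
  obtain ⟨h, Y, hY, hXh0, hXh, hYh, hYsub, hYf, hconf⟩ := hcert (s * t) (mul_ne_zero hs ht)
  have hXh0' : X' (some h) ≠ 0 := by rw [hXs]; exact mul_ne_zero hs hXh0
  have hXh' : X' (some h) = -W' (some h) := by
    rw [hXs, hWs, hXh]
    revert hs; generalize s = p; generalize t = q; generalize W h = r; revert p q r; decide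
  have hfsX : fs (rs X') = fs X := by ext e; simp [hXs, hs]
  have hfsW : fs (rs W') = fs W := by ext e; simp [hWs, ht]
  have hhX : h ∈ fs X := by simpa using hXh0
  have hfX : f ∈ fs X := by simp [hXf1]
  obtain ⟨Y', hY', hY'h, hY'w⟩ := elim' hC hX' hW' (by
    intro hh
    have := congrFun hh none
    simp [hXg, hWg] at this) hXh0' hXh'
  have hYe : fs Y = (fs X ∪ fs W).erase h := by
    apply Finset.eq_of_subset_of_card_le
    · intro x hx
      rw [Finset.mem_erase]
      exact ⟨by rintro rfl; simp [hYh] at hx, hYsub hx⟩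
    · rw [Finset.card_erase_of_mem (Finset.mem_union_left _ hhX), hsz Y hY]; omega
  have hY'sub : fs (rs Y') ⊆ fs Y := by
    intro x hx
    rw [hYe, Finset.mem_erase, ← hfsX, ← hfsW]
    have hx' : Y' (some x) ≠ 0 := by simpa using hx
    refine ⟨by rintro rfl; exact hx' hY'h, ?_⟩
    rcases within_supp hY'w hx' with h1 | h1
    · apply Finset.mem_union_left; rw [mem_fs, rs_apply, ← h1]; exact hx'
    · apply Finset.mem_union_right; rw [mem_fs, rs_apply, ← h1]; exact hx'
  obtain ⟨hY'D, hY'g⟩ := (key_size hC hdel hgp hcl hsz hY').2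
    (by rw [← hsz Y hY]; exact Finset.card_le_card hY'sub)
  have hY'g1 : Y' none = 1 := by
    rcases within_supp hY'w hY'g with h1 | h1
    · rw [h1, hXg]
    · rw [h1, hWg]
  have hY'eq : fs (rs Y') = fs Y :=
    Finset.eq_of_subset_of_card_le hY'sub (by rw [hsz Y hY, hsz _ hY'D])
  have hY'f0 : Y' (some f) ≠ 0 := by
    have : f ∈ fs (rs Y') := by rw [hY'eq]; simp [hYf]
    simpa using this
  have hY'f : Y' (some f) = s := by
    rcases within_supp hY'w hY'f0 with h1 | h1
    · rw [h1, hXf]
    · rw [h1, hWs, hWf] at hY'f0; simp at hY'f0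
  have hYs : ∀ e, Y' (some e) = s * Y e := by
    rcases hD.incomp _ hY'D Y hY (supp_subset_iff.2 hY'sub) with h1 | h1
    · have h2 := congrFun h1 f
      rw [rs_apply, hY'f, hYf] at h2
      intro e
      have := congrFun h1 e
      rw [rs_apply] at this
      rw [this, h2]; simp
    · have h2 := congrFun h1 f
      rw [rs_apply, hY'f, Pi.neg_apply, hYf] at h2
      intro e
      have := congrFun h1 e
      rw [rs_apply] at this
      rw [this, h2]; simp
  have hU : fs X ∪ fs Y = fs X ∪ fs W := by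
    rw [hYe]
    ext x
    simp only [Finset.mem_union, Finset.mem_erase]
    constructor
    · rintro (h1 | h1)
      · exact Or.inl h1
      · exact h1.2
    · rintro (h1 | h1)
      · exact Or.inl h1
      · by_cases hx : x = h
        · left; rw [hx]; exact hhX
        · exact Or.inr ⟨hx, Or.inr h1⟩
  have hU' : fs X' ∪ fs Y' = Finset.insertNone (fs X ∪ fs W) := by
    rw [← hU, ← hfsX, ← hY'eq]
    ext x
    cases x with
    | none => simp [hXg]
    | some e => simp
  have hU'c : (fs X' ∪ fs Y').card = m + 2 := by rw [hU', Finset.card_insertNone, hcard]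
  refine ⟨Y', hY', hY'D, hY'g1, hY'f, ?_, ⟨?_, ?_⟩, ?_⟩
  · intro x
    cases x with
    | none => rw [hXg, hY'g1]; decide
    | some e =>
      rw [hXs, hYs]
      have := hconf e
      revert this; generalize s = p; generalize X e = q; generalize Y e = r; revert p q r; decide
  · intro hh
    have : some h ∈ supp X' := hXh0'
    rw [hh] at this
    exact this hY'h
  · intro P hP Q hQ hne hsub
    rw [← coe_fs, ← coe_fs, ← coe_fs, ← coe_fs, ← Finset.coe_union, ← Finset.coe_union] at *
    rw [Finset.coe_subset] at hsub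
    rw [Finset.coe_inj]
    apply Finset.eq_of_subset_of_card_le hsub
    rw [hU'c]
    have hP1 := big_supp hC hdel hgp hcl hsz hP
    have hQ1 := big_supp hC hdel hgp hcl hsz hQ
    by_contra hlt
    have e1 : fs P = fs P ∪ fs Q :=
      Finset.eq_of_subset_of_card_le Finset.subset_union_left (by omega)
    have e2 : fs Q = fs P ∪ fs Q :=
      Finset.eq_of_subset_of_card_le Finset.subset_union_right (by omega)
    exact hne (congrArg _ (e1.trans e2.symm))
  · obtain ⟨Z, hZ, hZg, hZw⟩ := elim' hC hX' (hC.neg _ hY') (by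
      intro hh
      have := congrFun hh (some h)
      simp only [neg_neg] at this
      rw [hY'h] at this
      exact hXh0' this) (e := none) (by rw [hXg]; decide) (by simp [hXg, hY'g1])
    refine ⟨Z, hZ, hZg, hZw, ?_⟩
    have hZsub : fs (rs Z) ⊆ fs X ∪ fs W := by
      intro x hx
      rw [← hU, ← hfsX, ← hY'eq]
      have hx' : Z (some x) ≠ 0 := by simpa using hx
      rcases within_supp hZw hx' with h1 | h1
      · apply Finset.mem_union_left; rw [mem_fs, rs_apply, ← h1]; exact hx'
      · apply Finset.mem_union_right; rw [mem_fs, rs_apply]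
        rw [h1] at hx'; simpa using hx'
    have hZeq : fs (rs Z) = fs X ∪ fs W := by
      apply Finset.eq_of_subset_of_card_le hZsub
      rw [hcard]
      by_contra hlt
      exact ((key_size hC hdel hgp hcl hsz hZ).2 (by omega)).2 hZg
    have hZf0 : Z (some f) ≠ 0 := by
      have : f ∈ fs (rs Z) := by rw [hZeq]; exact Finset.mem_union_left _ hfX
      simpa using this
    have hZh0 : Z (some h) ≠ 0 := by
      have : h ∈ fs (rs Z) := by rw [hZeq]; exact Finset.mem_union_left _ hhX
      simpa using this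
    have hZh : Z (some h) = X' (some h) := by
      rcases within_supp hZw hZh0 with h1 | h1
      · exact h1
      · rw [h1, Pi.neg_apply, hY'h] at hZh0; simp at hZh0
    by_contra hZf
    obtain ⟨V, hV, hVf, hVw⟩ := elim' hC hX' hZ (by
      intro hh
      have := congrFun hh none
      simp [hXg, hZg] at this) (e := some f) (by rw [hXf]; exact hs) (by
        rw [hXf]; revert hs hZf hZf0; generalize s = p; generalize Z (some f) = q
        revert p q; decide)
    have hWe : fs W = (fs X ∪ fs W).erase f := by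
      apply Finset.eq_of_subset_of_card_le
      · intro x hx
        rw [Finset.mem_erase]
        exact ⟨by rintro rfl; simp [hWf] at hx, Finset.mem_union_right _ hx⟩
      · rw [Finset.card_erase_of_mem (Finset.mem_union_left _ hfX), hsz W hW]; omega
    have hVsub : fs (rs V) ⊆ fs W := by
      intro x hx
      rw [hWe, Finset.mem_erase]
      have hx' : V (some x) ≠ 0 := by simpa using hx
      refine ⟨by rintro rfl; exact hx' hVf, ?_⟩
      rcases within_supp hVw hx' with h1 | h1
      · apply Finset.mem_union_left; rw [← hfsX, mem_fs, rs_apply, ← h1]; exact hx'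
      · rw [← hZeq, mem_fs, rs_apply, ← h1]; exact hx'
    obtain ⟨hVD, hVg⟩ := (key_size hC hdel hgp hcl hsz hV).2
      (by rw [← hsz W hW]; exact Finset.card_le_card hVsub)
    have hVg1 : V none = 1 := by
      rcases within_supp hVw hVg with h1 | h1
      · rw [h1, hXg]
      · rw [h1, hZg] at hVg; exact absurd rfl hVg
    have hVW : supp V ⊆ supp W' := by
      intro x hx
      cases x with
      | none => simp [supp, hWg]
      | some e =>
        have : e ∈ fs (rs W') := by rw [hfsW]; exact hVsub (by simpa [supp] using hx)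
        simpa [supp] using this
    rcases hC.incomp V hV W' hW' hVW with h1 | h1
    · have hVh0 : V (some h) ≠ 0 := by
        rw [h1]; intro hh; rw [hh] at hXh'; exact hXh0' (by simpa using hXh')
      have hVh : V (some h) = X' (some h) := by
        rcases within_supp hVw hVh0 with h2 | h2
        · exact h2
        · rw [h2, hZh]
      rw [h1] at hVh
      rw [hVh] at hXh'
      revert hXh' hXh0'; generalize X' (some h) = p; revert p; decide
    · have := congrFun h1 none
      simp [hVg1, hWg] at this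

lemma comodular_symm {F : Type} {C : Set (F → SignType)} {X Y : F → SignType}
    (h : Comodular C X Y) : Comodular C Y X :=
  ⟨h.1.symm, fun P hP Q hQ hne hsub => by
    rw [Set.union_comm (supp Y)] at *; exact h.2 P hP Q hQ hne hsub⟩

theorem not_mandel (hD : IsOM D) (hsz : ∀ X ∈ D, (fs X).card = m) (hm : 2 ≤ m) {f : E}
    (hN : NoMut D m f) (hf : ∃ X ∈ D, X f ≠ 0) (b : Bool) : ¬ Mandel b D := by
  rintro ⟨C', hC, hdel, hgp, hcl, hE⟩
  obtain ⟨X0, hX0, hX0f⟩ := hf
  refine hE f (fun hl => hX0f (hl X0 hX0)) ?_ ?_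
  · rintro ⟨X, hX, hs⟩
    have h1 := hsz X hX
    have : fs X = {f} := by rw [← Finset.coe_inj, coe_fs, hs]; simp
    rw [this] at h1; simp at h1; omega
  obtain ⟨X1, hX1, hX1D, hX1g, hX1f⟩ : ∃ X1 ∈ C', rs X1 ∈ D ∧ X1 none = 1 ∧ X1 (some f) ≠ 0 := by
    obtain ⟨X', hX', hn, hr⟩ := hgp X0 hX0
    have e1 : rs X' = X0 := funext fun e => (hr e).symm
    by_cases h1 : X' none = 1
    · exact ⟨X', hX', e1 ▸ hX0, h1, by rw [← hr]; exact hX0f⟩
    · refine ⟨-X', hC.neg _ hX', ?_, ?_, by simp [← hr, hX0f]⟩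
      · have : rs (-X') = -X0 := by rw [← e1]; rfl
        rw [this]; exact hD.neg _ hX0
      · simp only [Pi.neg_apply]
        revert hn h1; generalize X' none = p; revert p; decide
  have mono : ∀ {P Q}, Relation.ReflTransGen (Arc C' none (some f) 1) P Q →
      Relation.ReflTransGen (fun A B => Arc C' none (some f) 1 A B ∨
        (b = true ∧ Arc C' none (some f) 0 A B)) P Q :=
    fun h => by
      induction h with
      | refl => exact Relation.ReflTransGen.refl
      | tail _ hs ih => exact ih.tail (Or.inl hs)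
  by_cases h1 : X1 (some f) = 1
  · obtain ⟨P, Q, hPQ, hr⟩ := exists_cycle (fun P Q => Arc C' none (some f) 1 Q P)
      {X | X ∈ C' ∧ rs X ∈ D ∧ X none = 1 ∧ X (some f) = 1} ⟨X1, hX1, hX1D, hX1g, h1⟩ (by
        rintro X ⟨hX, hXD, hXg, hXf⟩
        obtain ⟨Y, hY, hYD, hYg, hYf, hc, hcm, Z, hZ, hZg, hZw, hZf⟩ :=
          step hD hC hdel hgp hcl hsz hN 1 (by decide) hX hXD hXg hXf
        refine ⟨Y, ⟨hY, hYD, hYg, hYf⟩, hY, hX, hYg, hXg, fun e => by rw [mul_comm]; exact hc e,
          comodular_symm hcm, Z, hZ, hZg, ?_, hZf⟩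
        exact fun x => ⟨fun hx => ((hZw x).1 hx).symm, fun hx => ((hZw x).2 hx).symm⟩)
    exact ⟨Q, P, hPQ, mono (Relation.reflTransGen_swap.1 hr)⟩
  · have h2 : X1 (some f) = -1 := by
      revert hX1f h1; generalize X1 (some f) = p; revert p; decide
    obtain ⟨P, Q, hPQ, hr⟩ := exists_cycle (fun P Q => Arc C' none (some f) 1 P Q)
      {X | X ∈ C' ∧ rs X ∈ D ∧ X none = 1 ∧ X (some f) = -1} ⟨X1, hX1, hX1D, hX1g, h2⟩ (by
        rintro X ⟨hX, hXD, hXg, hXf⟩
        obtain ⟨Y, hY, hYD, hYg, hYf, hc, hcm, Z, hZ, hZg, hZw, hZf⟩ :=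
          step hD hC hdel hgp hcl hsz hN (-1) (by decide) hX hXD hXg hXf
        refine ⟨Y, ⟨hY, hYD, hYg, hYf⟩, hX, hY, hXg, hYg, hc, hcm, -Z, hC.neg _ hZ,
          by simp [hZg], ?_, by simp [hZf]⟩
        intro x
        have := hZw x
        simp only [Pi.neg_apply] at this ⊢
        revert this
        generalize X x = p; generalize Y x = q; generalize Z x = r; revert p q r; decide)
    exact ⟨P, Q, hPQ, mono hr⟩

end

end Pool.Agent.OM621
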