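import Pool.Agent.Lib.MP_621c18_co.Defs

/-!
Uniform oriented matroids from an orthogonal pair of signatures.
-/

set_option linter.unusedSectionVars false

namespace Pool.Agent.OM621

open Finset

variable {E : Type} [Fintype E] [DecidableEq E]

/-- the support as a finset -/
def fs (X : E → SignType) : Finset E := univ.filter (fun e => X e ≠ 0)

@[simp] lemma mem_fs {X : E → SignType} {e : E} : e ∈ fs X ↔ X e ≠ 0 := by simp [fs]

lemma coe_fs (X : E → SignType) : (fs X : Set E) = supp X := by
  ext e; simp [supp]

lemma supp_subset_iff {X Y : E → SignType} : supp X ⊆ supp Y ↔ fs X ⊆ fs Y := by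
  rw [← coe_fs, ← coe_fs, Finset.coe_subset]

lemma supp_eq_iff {X Y : E → SignType} : supp X = supp Y ↔ fs X = fs Y := by
  rw [← coe_fs, ← coe_fs, Finset.coe_inj]

@[simp] lemma fs_neg (X : E → SignType) : fs (-X) = fs X := by
  ext e; simp

omit [Fintype E] [DecidableEq E] in
lemma orth_symm {X Y : E → SignType} (h : Orth X Y) : Orth Y X := by
  unfold Orth at *
  simpa only [mul_comm] using h

structure UPair (A B : Set (E → SignType)) (k m : ℕ) : Prop where
  card : k + m = Fintype.card E + 2
  kpos : 2 ≤ k
  mpos : 2 ≤ m
  sizeA : ∀ X ∈ A, (fs X).card = k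
  sizeB : ∀ X ∈ B, (fs X).card = m
  exA : ∀ S : Finset E, S.card = k → ∃ X ∈ A, fs X = S
  exB : ∀ S : Finset E, S.card = m → ∃ X ∈ B, fs X = S
  negA : ∀ X ∈ A, -X ∈ A
  negB : ∀ X ∈ B, -X ∈ B
  orth : ∀ X ∈ A, ∀ Y ∈ B, Orth X Y

variable {A B : Set (E → SignType)} {k m : ℕ}

lemma UPair.symm (h : UPair A B k m) : UPair B A m k :=
  ⟨by have := h.card; omega, h.mpos, h.kpos, h.sizeB, h.sizeA, h.exB, h.exA, h.negB, h.negA,
    fun X hX Y hY => orth_symm (h.orth Y hY X hX)⟩

/-- a member of `A` through `e` with prescribed sign inside a large set -/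
lemma UPair.exists_through (h : UPair A B k m) (T : Finset E) (e : E) (he : e ∉ T)
    (hT : k ≤ T.card + 1) (s : SignType) (hs : s ≠ 0) :
    ∃ X ∈ A, X e = s ∧ ∀ x, x ≠ e → x ∉ T → X x = 0 := by
  obtain ⟨S, hST, hS⟩ := Finset.exists_subset_card_eq (s := T) (n := k - 1) (by omega)
  have heS : e ∉ S := fun h' => he (hST h')
  obtain ⟨X, hXA, hX⟩ := h.exA (insert e S)
    (by rw [Finset.card_insert_of_notMem heS]; have := h.kpos; omega)
  have hXe : X e ≠ 0 := by rw [← mem_fs, hX]; simp
  have hz : ∀ x, x ≠ e → x ∉ T → X x = 0 := by
    intro x hx hxT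
    by_contra hne
    have : x ∈ insert e S := by rw [← hX]; simpa using hne
    rcases Finset.mem_insert.1 this with h1 | h1
    · exact hx h1
    · exact hxT (hST h1)
  by_cases hse : X e = s
  · exact ⟨X, hXA, hse, hz⟩
  · refine ⟨-X, h.negA X hXA, ?_, fun x hx hxT => by simp [hz x hx hxT]⟩
    simp only [Pi.neg_apply]
    revert hse hXe hs
    generalize X e = a
    revert a s; decide

/-- nonzero vectors orthogonal to `A` have large support -/
lemma UPair.le_card (h : UPair A B k m) {V : E → SignType} (hV : ∀ X ∈ A, Orth X V)
    (h0 : V ≠ 0) : m ≤ (fs V).card := by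
  by_contra hlt
  obtain ⟨a, ha⟩ : ∃ a, V a ≠ 0 := by
    by_contra hc
    push Not at hc
    exact h0 (funext hc)
  have hc : ((fs V)ᶜ).card = Fintype.card E - (fs V).card := Finset.card_compl _
  have hle : (fs V).card ≤ Fintype.card E := Finset.card_le_univ _
  obtain ⟨X, hXA, hXa, hX⟩ := h.exists_through (fs V)ᶜ a (by simpa using ha)
    (by have := h.card; omega) (V a) ha
  have h1 : ∃ e, X e * V e = 1 := ⟨a, by rw [hXa]; revert ha; generalize V a = t; revert t; decide⟩
  obtain ⟨e, he⟩ := (hV X hXA).1 h1
  by_cases hea : e = a
  · subst hea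
    rw [hXa] at he
    revert he; generalize V e = t; revert t; decide
  · by_cases hv : V e = 0
    · rw [hv] at he; simp at he
    · rw [hX e hea (by simpa using hv)] at he; simp at he

/-- two vectors orthogonal to `A` with the same support of size `m` agree up to sign -/
lemma UPair.uniq (h : UPair A B k m) {V W : E → SignType} (hV : ∀ X ∈ A, Orth X V)
    (hW : ∀ X ∈ A, Orth X W) (hVW : fs V = fs W) (hm : (fs V).card = m) : V = W ∨ V = -W := by
  have key : ∀ a b, V a ≠ 0 → V b ≠ 0 → V a * V b = W a * W b := by
    intro a b ha hb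
    have hWa : W a ≠ 0 := by rw [← mem_fs, ← hVW, mem_fs]; exact ha
    have hWb : W b ≠ 0 := by rw [← mem_fs, ← hVW, mem_fs]; exact hb
    by_cases hab : a = b
    · subst hab
      revert ha hWa; generalize V a = s; generalize W a = t; revert s t; decide
    have hc : ((fs V)ᶜ).card = Fintype.card E - (fs V).card := Finset.card_compl _
    have hle : (fs V).card ≤ Fintype.card E := Finset.card_le_univ _
    have hbn : b ∉ (fs V)ᶜ := by simpa using hb
    have han : a ∉ insert b (fs V)ᶜ := by simp [hab, ha]
    obtain ⟨X, hXA, hX⟩ := h.exA (insert a (insert b (fs V)ᶜ)) (by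
      rw [Finset.card_insert_of_notMem han, Finset.card_insert_of_notMem hbn]
      have := h.card; omega)
    have hXa : X a ≠ 0 := by rw [← mem_fs, hX]; simp
    have hXb : X b ≠ 0 := by rw [← mem_fs, hX]; simp
    have hz : ∀ U : E → SignType, fs V = fs U → ∀ e, e ≠ a → e ≠ b → X e * U e = 0 := by
      intro U hU e hea heb
      by_cases hu : U e = 0
      · simp [hu]
      · have : e ∉ fs X := by
          rw [hX]; simp only [Finset.mem_insert, hea, heb, false_or, Finset.mem_compl, not_not]
          rw [hU]; simpa using hu
        have : X e = 0 := by simpa using this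
        simp [this]
    have two : ∀ U : E → SignType, fs V = fs U → Orth X U → U a ≠ 0 → U b ≠ 0 →
        X a * U a = -(X b * U b) := by
      intro U hU hO hUa hUb
      have red : ∀ t : SignType, t ≠ 0 → ((∃ e, X e * U e = t) ↔
          (X a * U a = t ∨ X b * U b = t)) := by
        intro t ht
        constructor
        · rintro ⟨e, he⟩
          by_cases hea : e = a
          · left; rw [← hea]; exact he
          by_cases heb : e = b
          · right; rw [← heb]; exact he
          rw [hz U hU e hea heb] at he
          exact absurd he.symm ht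
        · rintro (h1 | h1)
          · exact ⟨a, h1⟩
          · exact ⟨b, h1⟩
      unfold Orth at hO
      rw [red 1 (by decide), red (-1) (by decide)] at hO
      revert hO hXa hXb hUa hUb
      generalize X a = p; generalize X b = q; generalize U a = r; generalize U b = s
      revert p q r s; decide
    have h1 := two V rfl (hV X hXA) ha hb
    have h2 := two W hVW (hW X hXA) hWa hWb
    clear two
    revert h1 h2 hXa hXb hb hWb
    generalize X a = p; generalize X b = q; generalize V a = r; generalize V b = s
    generalize W a = t; generalize W b = u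
    revert p q r s t u; decide
  have hpos : 0 < (fs V).card := by have := h.mpos; omega
  obtain ⟨a, ha⟩ := Finset.card_pos.1 hpos
  have hVa : V a ≠ 0 := by simpa using ha
  have hWa : W a ≠ 0 := by rw [← mem_fs, ← hVW]; exact ha
  have hzero : ∀ b, V b = 0 → W b = 0 := by
    intro b hb
    by_contra hw
    have : b ∈ fs V := by rw [hVW]; simpa using hw
    simp [hb] at this
  by_cases hs : V a = W a
  · left
    funext b
    by_cases hb : V b = 0
    · rw [hb, hzero b hb]
    · have := key a b hVa hb
      revert this hs hVa
      generalize V a = p; generalize V b = q; generalize W a = r; generalize W b = s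
      revert p q r s; decide
  · right
    funext b
    simp only [Pi.neg_apply]
    by_cases hb : V b = 0
    · rw [hb, hzero b hb]; simp
    · have := key a b hVa hb
      revert this hs hVa hWa
      generalize V a = p; generalize V b = q; generalize W a = r; generalize W b = s
      revert p q r s; decide

lemma UPair.ne_zero (h : UPair A B k m) {X : E → SignType} (hX : X ∈ A) : X ≠ 0 := by
  rintro rfl
  have h1 := h.sizeA 0 hX
  have h2 : fs (0 : E → SignType) = ∅ := by ext e; simp
  have := h.kpos
  rw [h2] at h1; simp at h1; omega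

lemma UPair.dual_eq (h : UPair A B k m) : dual A = B := by
  ext V
  constructor
  · rintro ⟨hV, h0, hmin⟩
    have hle := h.le_card hV h0
    obtain ⟨S, hS, hSc⟩ := Finset.exists_subset_card_eq hle
    obtain ⟨Y, hYB, hY⟩ := h.exB S hSc
    have hYo : ∀ X ∈ A, Orth X Y := fun X hX => h.orth X hX Y hYB
    have heq : fs Y = fs V := supp_eq_iff.1
      (hmin Y hYo (h.symm.ne_zero hYB) (supp_subset_iff.2 (by rw [hY]; exact hS)))
    rcases h.uniq hV hYo heq.symm (by rw [← heq]; exact h.sizeB Y hYB) with h1 | h1
    · rw [h1]; exact hYB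
    · rw [h1]; exact h.negB Y hYB
  · intro hV
    refine ⟨fun X hX => h.orth X hX V hV, h.symm.ne_zero hV, fun Y hY h0 hsub => ?_⟩
    rw [supp_eq_iff]
    apply Finset.eq_of_subset_of_card_le (supp_subset_iff.1 hsub)
    rw [h.sizeB V hV]
    exact h.le_card hY h0

/-- the painting lemma -/
lemma UPair.paint (h : UPair A B k m) (σ : E → SignType) (e : E) (hσe : σ e ≠ 0)
    (P : Finset E) : (∀ x ∈ P, σ x ≠ 0) → e ∉ P → ∀ G : Finset E, e ∉ G → Disjoint P G →
    (∃ X ∈ A, X e = σ e ∧ (∀ x ∈ P, X x = 0 ∨ X x = σ x) ∧
      ∀ x, x ≠ e → x ∉ P → x ∉ G → X x = 0) ∨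
    (∃ Y ∈ B, Y e = σ e ∧ (∀ x ∈ P, Y x = 0 ∨ Y x = σ x) ∧ ∀ x ∈ G, Y x = 0) := by
  induction P using Finset.induction_on with
  | empty =>
    intro _ _ G heG _
    by_cases hG : k ≤ G.card + 1
    · obtain ⟨X, hXA, hXe, hX⟩ := h.exists_through G e heG hG (σ e) hσe
      exact Or.inl ⟨X, hXA, hXe, by simp, fun x hx _ hxG => hX x hx hxG⟩
    · have hc : ((insert e G)ᶜ).card = Fintype.card E - (insert e G).card := Finset.card_compl _
      rw [Finset.card_insert_of_notMem heG] at hc
      obtain ⟨Y, hYB, hYe, hY⟩ := h.symm.exists_through (insert e G)ᶜ e (by simp)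
        (by have := h.card; have := h.mpos; omega) (σ e) hσe
      refine Or.inr ⟨Y, hYB, hYe, by simp, fun x hx => hY x ?_ (by simp [hx])⟩
      rintro rfl; exact heG hx
  | insert c P hc ih =>
    intro hσ heP G heG hd
    have hσ' : ∀ x ∈ P, σ x ≠ 0 := fun x hx => hσ x (Finset.mem_insert_of_mem hx)
    have hσc : σ c ≠ 0 := hσ c (Finset.mem_insert_self _ _)
    have heP' : e ∉ P := fun hx => heP (Finset.mem_insert_of_mem hx)
    have hec : e ≠ c := fun hx => heP (by rw [hx]; exact Finset.mem_insert_self _ _)
    rw [Finset.disjoint_insert_left] at hd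
    obtain ⟨hcG, hd⟩ := hd
    rcases ih hσ' heP' (insert c G) (by simp [hec, heG])
      (by rw [Finset.disjoint_insert_right]; exact ⟨hc, hd⟩) with
      ⟨X, hXA, hXe, hXP, hXR⟩ | ⟨Y, hYB, hYe, hYP, hYG⟩
    · rcases ih hσ' heP' G heG hd with ⟨X2, hXA2, hXe2, hXP2, hXR2⟩ | ⟨Y, hYB, hYe, hYP, hYG⟩
      · left
        refine ⟨X2, hXA2, hXe2, ?_, ?_⟩
        · intro x hx
          rcases Finset.mem_insert.1 hx with rfl | hx
          · left; exact hXR2 x hec.symm hc hcG
          · exact hXP2 x hx
        · intro x hx hxP hxG
          exact hXR2 x hx (fun hh => hxP (Finset.mem_insert_of_mem hh)) hxG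
      · by_cases hXc : X c = 0 ∨ X c = σ c
        · left
          refine ⟨X, hXA, hXe, ?_, ?_⟩
          · intro x hx
            rcases Finset.mem_insert.1 hx with rfl | hx
            · exact hXc
            · exact hXP x hx
          · intro x hx hxP hxG
            refine hXR x hx (fun hh => hxP (Finset.mem_insert_of_mem hh)) ?_
            intro hh
            rcases Finset.mem_insert.1 hh with rfl | hh
            · exact hxP (Finset.mem_insert_self _ _)
            · exact hxG hh
        by_cases hYc : Y c = 0 ∨ Y c = σ c
        · right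
          refine ⟨Y, hYB, hYe, ?_, hYG⟩
          intro x hx
          rcases Finset.mem_insert.1 hx with rfl | hx
          · exact hYc
          · exact hYP x hx
        exfalso
        have h1 : ∃ x, X x * Y x = 1 := ⟨e, by
          rw [hXe, hYe]; revert hσe; generalize σ e = t; revert t; decide⟩
        obtain ⟨x, hx⟩ := (h.orth X hXA Y hYB).1 h1
        by_cases hxe : x = e
        · subst hxe
          rw [hXe, hYe] at hx
          revert hx; generalize σ x = t; revert t; decide
        by_cases hxc : x = c
        · subst hxc
          revert hx hXc hYc hσc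
          generalize σ x = t; generalize X x = p; generalize Y x = q
          revert t p q; decide
        by_cases hxP : x ∈ P
        · have a1 := hXP x hxP
          have a2 := hYP x hxP
          revert hx a1 a2
          generalize σ x = t; generalize X x = p; generalize Y x = q
          revert t p q; decide
        by_cases hxG : x ∈ G
        · rw [hYG x hxG] at hx; simp at hx
        · rw [hXR x hxe hxP (by simp [hxc, hxG])] at hx; simp at hx
    · right
      refine ⟨Y, hYB, hYe, ?_, fun x hx => hYG x (Finset.mem_insert_of_mem hx)⟩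
      intro x hx
      rcases Finset.mem_insert.1 hx with rfl | hx
      · left; exact hYG x (Finset.mem_insert_self _ _)
      · exact hYP x hx

lemma UPair.isOM (h : UPair A B k m) : IsOM A := by
  refine ⟨fun h0 => h.ne_zero h0 rfl, h.negA, ?_, ?_⟩
  · intro X hX Y hY hsub
    have heq : fs X = fs Y := Finset.eq_of_subset_of_card_le (supp_subset_iff.1 hsub)
      (by rw [h.sizeA X hX, h.sizeA Y hY])
    exact h.symm.uniq (fun W hW => orth_symm (h.orth X hX W hW))
      (fun W hW => orth_symm (h.orth Y hY W hW)) heq (h.sizeA X hX)
  · intro X hX Y hY hne e hXe hYe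
    obtain ⟨f, hf⟩ : ∃ f, X f ≠ -Y f := by
      by_contra hc
      push Not at hc
      exact hne (funext hc)
    have hfe : f ≠ e := by rintro rfl; rw [hXe, hYe] at hf; exact hf (by decide)
    let σ : E → SignType := fun x => if X x = 0 then Y x else X x
    have hσ : ∀ x, X x ≠ -Y x → σ x ≠ 0 := by
      intro x; simp only [σ]
      generalize X x = p; generalize Y x = q; revert p q; decide
    rcases h.paint σ f (hσ f hf) (univ.filter (fun x => x ≠ f ∧ X x ≠ -Y x))
      (fun x hx => hσ x (by simpa using (Finset.mem_filter.1 hx).2.2)) (by simp)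
      (univ.filter (fun x => x ≠ e ∧ X x ≠ 0 ∧ X x = -Y x)) (by simp [hf])
      (by
        rw [Finset.disjoint_filter]
        intro x _ h1 h2
        exact h1.2 h2.2.2) with
      ⟨Z, hZA, hZf, hZP, hZR⟩ | ⟨W, hWB, hWf, hWP, hWG⟩
    · refine ⟨Z, hZA, hZR e hfe.symm (by simp [hXe, hYe]) (by simp), fun x => ?_⟩
      by_cases hxf : x = f
      · subst hxf
        revert hZf; simp only [σ]
        generalize X x = p; generalize Y x = q; generalize Z x = r; revert p q r; decide
      by_cases h1 : X x = -Y x
      · by_cases h2 : X x = 0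
        · rw [hZR x hxf (by simp [h1]) (by simp [h2])]; simp
        · revert h1 h2
          generalize X x = p; generalize Y x = q; generalize Z x = r; revert p q r; decide
      · have := hZP x (by simp [hxf, h1])
        revert this; simp only [σ]
        generalize X x = p; generalize Y x = q; generalize Z x = r; revert p q r; decide
    · exfalso
      have nonneg : ∀ x, x ≠ e → X x * W x ≠ -1 ∧ Y x * W x ≠ -1 := by
        intro x hxe
        by_cases hxf : x = f
        · subst hxf
          revert hWf hf; simp only [σ]
          generalize X x = p; generalize Y x = q; generalize W x = r; revert p q r; decide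
        by_cases h1 : X x = -Y x
        · by_cases h2 : X x = 0
          · revert h1 h2
            generalize X x = p; generalize Y x = q; generalize W x = r; revert p q r; decide
          · rw [hWG x (by simp [hxe, h2, ← h1])]; simp
        · have := hWP x (by simp [hxf, h1])
          revert this h1; simp only [σ]
          generalize X x = p; generalize Y x = q; generalize W x = r; revert p q r; decide
      have oX := h.orth X hX W hWB
      have oY := h.orth Y hY W hWB
      have hpos : X f * W f = 1 ∨ Y f * W f = 1 := by
        revert hWf hf; simp only [σ]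
        generalize X f = p; generalize Y f = q; generalize W f = r; revert p q r; decide
      rcases hpos with hp | hp
      · obtain ⟨x, hx⟩ := oX.1 ⟨f, hp⟩
        have hxe : x = e := by by_contra hxe; exact (nonneg x hxe).1 hx
        subst hxe
        have h2 : Y x * W x = 1 := by
          rw [hXe] at hx; rw [hYe]; revert hx; generalize W x = r; revert r; decide
        obtain ⟨y, hy⟩ := oY.1 ⟨x, h2⟩
        have hye : y = x := by by_contra hye; exact (nonneg y hye).2 hy
        subst hye
        rw [h2] at hy; exact absurd hy (by decide)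
      · obtain ⟨x, hx⟩ := oY.1 ⟨f, hp⟩
        have hxe : x = e := by by_contra hxe; exact (nonneg x hxe).2 hx
        subst hxe
        have h2 : X x * W x = 1 := by
          rw [hYe] at hx; rw [hXe]; revert hx; generalize W x = r; revert r; decide
        obtain ⟨y, hy⟩ := oX.1 ⟨x, h2⟩
        have hye : y = x := by by_contra hye; exact (nonneg y hye).1 hy
        subst hye
        rw [h2] at hy; exact absurd hy (by decide)

end Pool.Agent.OM621
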